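import Mathlib
import Pool.Agent.Lib.MP_f65b1b_al.Final

/-!
# Betti numbers of powers of a monomial ideal across all primes

For every `n` there is a finite set `B` of primes, depending only on `n`, such that the Betti
numbers of (all powers of) all monomial ideals in `n` variables over a field `K` agree with those
over `ℚ`, unless the characteristic of `K` lies in `B`.  In particular, for a given monomial ideal
`I` and a given `i`, only finitely many (at most `|B| + 1`) sequences
`(β_i^{𝔽_p}(I^h))_{h ≥ 1}` occur.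
-/

namespace Pool.Agent.Results.MP_f65b1b_al.FiniteSequences

open CategoryTheory

/-- The monomial ideal `I_K` of `K[x_1, …, x_n]` generated by the monomials with exponent vectors
`m 0, …, m (r - 1)`. -/
noncomputable def monIdeal (K : Type) [Field K] {n r : ℕ} (m : Fin r → Fin n →₀ ℕ) :
    Ideal (MvPolynomial (Fin n) K) :=
  Ideal.span (Set.range fun j => MvPolynomial.monomial (m j) (1 : K))

/-- The field `K` as a module over `K[x_1, …, x_n]`, through the constant coefficient. -/
noncomputable def residue (K : Type) [Field K] (n : ℕ) : ModuleCat.{0} (MvPolynomial (Fin n) K) :=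
  (ModuleCat.restrictScalars (MvPolynomial.constantCoeff : MvPolynomial (Fin n) K →+* K)).obj
    (ModuleCat.of K K)

/-- The total Betti number `β_i^K(J) = dim_K Tor_i^{K[x_1, …, x_n]}(J, K)`. -/
noncomputable def betti (K : Type) [Field K] {n : ℕ} (i : ℕ) (J : Ideal (MvPolynomial (Fin n) K)) :
    ℕ :=
  Module.finrank K
    ((ModuleCat.restrictScalars (MvPolynomial.C : K →+* MvPolynomial (Fin n) K)).obj
      (((Tor (ModuleCat.{0} (MvPolynomial (Fin n) K)) i).obj
        (ModuleCat.of (MvPolynomial (Fin n) K) J)).obj (residue K n)))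

/-- `β_i^K(I_K^h)`, where `I_K` is the monomial ideal with exponent vectors `m`. -/
noncomputable def bettiPower (K : Type) [Field K] {n r : ℕ} (m : Fin r → Fin n →₀ ℕ) (i h : ℕ) :
    ℕ :=
  betti K i (monIdeal K m ^ h)

/-- The set of the sequences `(β_i^{𝔽_p}(I^h))_{h ≥ 1}`, where `p` runs over all primes. -/
noncomputable def bettiSequences {n r : ℕ} (m : Fin r → Fin n →₀ ℕ) (i : ℕ) : Set (ℕ+ → ℕ) :=
  {s | ∃ (p : ℕ) (_ : Fact p.Prime), s = fun h : ℕ+ => bettiPower (ZMod p) m i h}

open Pointwise Pool.Agent.Lib.MP_f65b1b_al in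
lemma monIdeal_pow (K : Type) [Field K] {n r : ℕ} (m : Fin r → Fin n →₀ ℕ) (h : ℕ) :
    monIdeal K m ^ h = mI K (h • Set.range m) := by
  rw [← mI_pow]
  congr 1
  rw [monIdeal, mI, ← Set.range_comp]
  rfl

/-- Main theorem. -/
theorem result (n : ℕ) :
    ∃ B : Finset ℕ, (∀ p ∈ B, p.Prime) ∧
      (∀ (K : Type) [Field K], ringChar K ∉ B →
        ∀ (r : ℕ) (m : Fin r → Fin n →₀ ℕ) (i h : ℕ),
          bettiPower K m i h = bettiPower ℚ m i h) ∧
      (∀ (r : ℕ) (m : Fin r → Fin n →₀ ℕ) (i : ℕ),
        (bettiSequences m i).Finite ∧ (bettiSequences m i).ncard ≤ B.card + 1) := by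
  classical
  obtain ⟨N, hN, hmain⟩ := Pool.Agent.Lib.MP_f65b1b_al.exists_rank_tor_eq n
  have hfield : ∀ (K : Type) [Field K], ringChar K ∉ N.natAbs.primeFactors →
        ∀ (r : ℕ) (m : Fin r → Fin n →₀ ℕ) (i h : ℕ),
          bettiPower K m i h = bettiPower ℚ m i h := by
    intro K _ hK r m i h
    have hNK : (N : K) ≠ 0 := by
      intro h0
      have h1 : (ringChar K : ℤ) ∣ N := (CharP.intCast_eq_zero_iff K (ringChar K) N).mp h0
      have h2 : ringChar K ∣ N.natAbs := Int.natCast_dvd.mp h1
      have h3 : N.natAbs ≠ 0 := Int.natAbs_ne_zero.mpr hN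
      apply hK
      refine Nat.mem_primeFactors.mpr ⟨?_, h2, h3⟩
      rcases CharP.char_is_prime_or_zero K (ringChar K) with h4 | h4
      · exact h4
      · rw [h4, zero_dvd_iff] at h2
        exact absurd h2 h3
    rw [bettiPower, bettiPower, monIdeal_pow, monIdeal_pow]
    exact congrArg Cardinal.toNat (hmain K hNK _ i)
  refine ⟨N.natAbs.primeFactors, fun p hp => Nat.prime_of_mem_primeFactors hp, hfield, ?_⟩
  intro r m i
  set G : ℕ → (ℕ+ → ℕ) := fun p => if hp : Fact p.Prime then
        fun h : ℕ+ => bettiPower (ZMod p) m i h else 0 with hG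
  set s₀ : ℕ+ → ℕ := fun h : ℕ+ => bettiPower ℚ m i h with hs₀
  have hsub : bettiSequences m i ⊆
      (insert s₀ (N.natAbs.primeFactors.image G) : Finset (ℕ+ → ℕ)) := by
    rintro s ⟨p, hp, rfl⟩
    rw [Finset.coe_insert, Set.mem_insert_iff, Finset.mem_coe, Finset.mem_image]
    by_cases hpB : p ∈ N.natAbs.primeFactors
    · right
      refine ⟨p, hpB, ?_⟩
      rw [hG]
      simp only [dif_pos hp]
    · left
      funext h
      exact hfield (ZMod p) (by rwa [ZMod.ringChar_zmod_n]) r m i h
  refine ⟨Set.Finite.subset (Finset.finite_toSet _) hsub, ?_⟩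
  calc (bettiSequences m i).ncard
      ≤ ((insert s₀ (N.natAbs.primeFactors.image G) : Finset (ℕ+ → ℕ)) : Set (ℕ+ → ℕ)).ncard :=
        Set.ncard_le_ncard hsub (Finset.finite_toSet _)
    _ = (insert s₀ (N.natAbs.primeFactors.image G)).card := Set.ncard_coe_finset _
    _ ≤ (N.natAbs.primeFactors.image G).card + 1 := Finset.card_insert_le _ _
    _ ≤ N.natAbs.primeFactors.card + 1 := Nat.add_le_add_right Finset.card_image_le 1

end Pool.Agent.Results.MP_f65b1b_al.FiniteSequences
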